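import Pool.Agent.H923R2.FZ.Stubs2

/-! REPL: conjugating the members of a group of free subalgebras by a unitary of the group. -/

set_option autoImplicit false

open scoped ComplexConjugate

noncomputable section

namespace Pool.Agent.H923R2.FZ.T_REPL

open Pool.Agent.H923R2.FP

theorem free_mono {A : Type} [CStarAlgebra A] {K : Type} {τ : A →ₗ[ℂ] ℂ}
    {S S' : K → StarSubalgebra ℂ A} (h : ∀ k, S k ≤ S' k) (hS : FreeFam τ S') : FreeFam τ S :=
  fun w hw hz hc => hS w hw (fun z hz' => ⟨h z.1 (hz z hz').1, (hz z hz').2⟩) hc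

theorem conj_prod {A : Type} [CStarAlgebra A] (v : unitary A) (w : List A) :
    w.prod = (v : A) * (w.map (fun z => star (v : A) * z * (v : A))).prod * star (v : A) := by
  have hv1 : star (v : A) * (v : A) = 1 := Unitary.star_mul_self_of_mem v.2
  have hv2 : (v : A) * star (v : A) = 1 := Unitary.mul_star_self_of_mem v.2
  induction w with
  | nil => simp [hv2]
  | cons z w ih =>
    rw [List.prod_cons, List.map_cons, List.prod_cons, ih]
    have h1 : ∀ X : A, (v : A) * (star (v : A) * z * (v : A) * X) * star (v : A) =
        ((v : A) * star (v : A)) * z * ((v : A) * X * star (v : A)) := by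
      intro X
      noncomm_ring
    rw [h1, hv2, one_mul]

theorem t_REPL (hGRP2 : S_GRP2) (hCLO : S_CLO) (hUNG2 : S_UNG2) : S_REPL := by
  classical
  intro A _ τ hτ K S hS P v hv
  have hv1 : star (v : A) * (v : A) = 1 := Unitary.star_mul_self_of_mem v.2
  have hv2 : (v : A) * star (v : A) = 1 := Unitary.mul_star_self_of_mem v.2
  have hτc : ∀ x : A, τ (star (v : A) * x * (v : A)) = τ x := by
    intro x
    rw [hτ.comm, ← mul_assoc, hv2, one_mul]
  have hτc' : ∀ x : A, τ ((v : A) * x * star (v : A)) = τ x := by
    intro x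
    rw [hτ.comm, ← mul_assoc, hv1, one_mul]
  refine hUNG2 A τ hτ K _ P ((⨆ k : {k // k ∈ P}, S k.1).topologicalClosure) ?_ ?_ ?_
  · intro k hk
    simp only [hk, if_true]
    intro x hx
    rw [StarSubalgebra.mem_map] at hx
    obtain ⟨y, hy, rfl⟩ := hx
    have hyT : y ∈ (⨆ k : {k // k ∈ P}, S k.1).topologicalClosure :=
      StarSubalgebra.le_topologicalClosure _ (le_iSup (fun k : {k // k ∈ P} => S k.1) ⟨k, hk⟩ hy)
    exact mul_mem (mul_mem hv hyT) (star_mem hv)
  · intro w hw hz hc
    have h1 : (w.map Prod.snd).prod = (v : A) *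
        ((w.map (fun z => ((z.1.1, star (v : A) * z.2 * (v : A)) : K × A))).map Prod.snd).prod *
          star (v : A) := by
      rw [conj_prod v (w.map Prod.snd), List.map_map, List.map_map]
      rfl
    rw [h1, hτc']
    refine hS _ ?_ ?_ ?_
    · simpa using hw
    · intro z' hz'
      rw [List.mem_map] at hz'
      obtain ⟨z, hzw, rfl⟩ := hz'
      obtain ⟨hm, h0⟩ := hz z hzw
      refine ⟨?_, ?_⟩
      · have hP : z.1.1 ∈ P := z.1.2
        simp only [hP, if_true] at hm
        rw [StarSubalgebra.mem_map] at hm
        obtain ⟨y, hy, hyz⟩ := hm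
        have h2 : z.2 = (v : A) * y * star (v : A) := hyz.symm
        have h3 : star (v : A) * z.2 * (v : A) = y := by
          rw [h2]
          calc star (v : A) * ((v : A) * y * star (v : A)) * (v : A)
              = (star (v : A) * (v : A)) * y * (star (v : A) * (v : A)) := by noncomm_ring
            _ = y := by rw [hv1, one_mul, mul_one]
        show star (v : A) * z.2 * (v : A) ∈ S z.1.1
        rw [h3]
        exact hy
      · show τ (star (v : A) * z.2 * (v : A)) = 0
        rw [hτc, h0]
    · rw [List.isChain_map]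
      refine hc.imp ?_
      intro x y hxy h
      exact hxy (Subtype.ext h)
  · have h1 := hGRP2 A τ hτ K S hS P
    have h2 := hCLO A τ hτ _ _ h1
    refine free_mono ?_ h2
    intro o
    cases o with
    | none => exact le_rfl
    | some k =>
      have hk : k.1 ∉ P := k.2
      simp only [Option.elim_some, hk, if_false]
      exact StarSubalgebra.le_topologicalClosure _

end Pool.Agent.H923R2.FZ.T_REPL
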